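import Pool.Agent.Q193.LT.Crit

/-!
# Ratios of successive critical values and the cubic hypersurfaces `T(x, y, z) = 1`

Let `F` be a totally imaginary number field and `E` a number field. Let `M` be the category of motives
over `F` with coefficients in `E` (for absolute Hodge cycles, or for motivated cycles), a semisimple
abelian category with Tate twists `N ↦ N(a)`. For a separated scheme `X` of finite type over `F` let
`D.H i X` be the object of `M` given by the graded object of the weight filtration of `H^i_c(X)`, with
coefficients extended to `E`; for smooth projective `X` it is the motive `h^i(X)`. The `L`-functions are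
those of `Res_{F/ℚ} N`, with values in `E ⊗ ℂ`.

For a motive `N` let `C.crit N` be the statement that `N` is pure, that `Res_{F/ℚ} N` has no middle Hodge
type, and that `0` and `1` are both critical; `C.cont N` that `L(s, N)` has a meromorphic continuation to
`ℂ` which is holomorphic at `0` and `1`; `C.L₀ N` and `C.L₁ N` are the values of the continuation at `0`
and `1`, and `C.rk N` is the rank of `N` over `E`. Let `c = 1 ⊗ 𝔦^{d_F/2} Δ_F`, an invertible element of
`E ⊗ ℂ`. `Ratio E C c N` says: if `N` is critical at `0` and `1` in the sense above, then `L(s, N)` has the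
continuation, and if `L(1, N)` is invertible, then `L(0, N) / L(1, N) = c^{rk N}` in `(E ⊗ ℂ)/Eˣ`.

For the Tate twist `N(m)` this is the statement of question Q1 for `N` and `m`, together with its
assumption on the continuation. The properties `IsRatio` are standard: everything only depends on the
isomorphism class, and a direct sum is critical (has a continuation) only if (if) both summands are
critical (have continuations); values are multiplicative, and ranks additive.

`Facts D (Ratio E C c) N` says that all direct factors of all Tate twists of `N` have the property. All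
motives over `F` with coefficients in `E` are direct factors of finite direct sums of Tate twists of
motives `h^i(Y)`, `Y` smooth projective over `F`, and simple ones are direct factors of one `h^i(Y)(a)`.

**Theorem.** (1) Question Q1 together with the continuation is true for all direct factors of all
`h^i(Y)(a)`, `Y` smooth projective over `F`, if and only if it is true for all direct factors of all Tate
twists of the motives `Gr^W H^i_c(T = 1)` of the smooth affine cubic hypersurfaces `T(x, y, z) = 1` of all
trilinear forms `T` over `F`.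

(2) For all `n`, the same is true for the smooth projective `Y` of dimension at most `n` and the
hypersurfaces `T(x, y, z) = 1` such that one of the three blocks of variables has at most `n + 2` variables
(the other two blocks are arbitrary).
-/

set_option autoImplicit false

open CategoryTheory CategoryTheory.Limits AlgebraicGeometry Pool.Agent.Y116.UV Pool.Agent.Z125.UN
  Pool.Agent.Q193.LT

universe v u

namespace Pool.Agent.Results.MP_c63a07_nt.CubicFactors

variable {M : Type u} [Category.{v} M] [Abelian M] {E : Type} [Field E] {EC : Type} [CommRing EC]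
  [Algebra E EC]

/-- Criticality at `0` and `1`, continuation, the values at `0` and `1`, and the rank. -/
structure RatioData (M : Type u) (EC : Type) where
  /-- `N` is pure without middle Hodge type, and critical at `0` and `1` -/
  crit : M → Prop
  /-- the `L`-function has a continuation which is holomorphic at `0` and `1` -/
  cont : M → Prop
  /-- `L(0, N)` -/
  L₀ : M → EC
  /-- `L(1, N)` -/
  L₁ : M → EC
  /-- the rank of `N` -/
  rk : M → ℕ

/-- The standard properties. -/
structure IsRatio (C : RatioData M EC) : Prop where
  iso : ∀ {N N' : M}, (N ≅ N') → (C.crit N ↔ C.crit N') ∧ (C.cont N ↔ C.cont N') ∧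
    C.L₀ N = C.L₀ N' ∧ C.L₁ N = C.L₁ N' ∧ C.rk N = C.rk N'
  zero : ∀ {N : M}, IsZero N → C.cont N ∧ C.L₀ N = 1 ∧ C.L₁ N = 1 ∧ C.rk N = 0
  crit : ∀ {N N' : M}, C.crit (N ⊞ N') → C.crit N ∧ C.crit N'
  cont : ∀ {N N' : M}, C.cont N → C.cont N' → C.cont (N ⊞ N') ∧
    C.L₀ (N ⊞ N') = C.L₀ N * C.L₀ N' ∧ C.L₁ (N ⊞ N') = C.L₁ N * C.L₁ N'
  rank : ∀ {N N' : M}, C.rk (N ⊞ N') = C.rk N + C.rk N'

/-- If `N` is critical at `0` and `1`, its `L`-function has a continuation, and if `L(1, N)` is
invertible, then `L(0, N) / L(1, N)` is `c ^ rk N` up to an element of `Eˣ`. -/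
def Ratio (E : Type) [Field E] {EC : Type} [CommRing EC] [Algebra E EC] (C : RatioData M EC)
    (c : EC) (N : M) : Prop :=
  C.crit N → C.cont N ∧ (IsUnit (C.L₁ N) → ∃ e : E, e ≠ 0 ∧ C.L₀ N = e • (c ^ C.rk N * C.L₁ N))

/-- The property for all direct factors of all twists of `h^i(Y)`, `dim Y ≤ n`. -/
def Proj {F : Type} [Field F] (D : CompactData F M) (Q : M → Prop) (n : ℕ) : Prop :=
  ∀ Y : Sch F, SmoothProj Y → topologicalKrullDim Y.left ≤ n → ∀ i, Facts D Q (D.H i Y)

/-- The property for all direct factors of all twists of `Gr^W H^i_c(T = 1)`, for the `T` with a block of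
at most `m` variables. -/
def Forms {F : Type} [Field F] (D : CompactData F M) (Q : M → Prop) (m : ℕ) : Prop :=
  ∀ (a b c : ℕ) (T : Fin a → Fin b → Fin c → F), (a ≤ m ∨ b ≤ m ∨ c ≤ m) →
    ∀ i, Facts D Q (D.H i (hypS T))

lemma ratio_serre {F : Type} [Field F] {D : CompactData F M} (h : IsMotives D)
    {C : RatioData M EC} (hC : IsRatio C) (c : EC) : IsTateSerre D (Facts D (Ratio E C c)) := by
  refine facts_serre h.compact h.semisimple ?_ ?_ ?_
  · intro X hX _
    obtain ⟨h1, h2, h3, h4⟩ := hC.zero hX
    refine ⟨h1, fun _ => ⟨1, one_ne_zero, ?_⟩⟩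
    rw [h2, h3, h4, pow_zero, mul_one, one_smul]
  · intro X Y e hX hY
    obtain ⟨h1, h2, h3, h4, h5⟩ := hC.iso e
    obtain ⟨h6, h7⟩ := hX (h1.mpr hY)
    refine ⟨h2.mp h6, fun hu => ?_⟩
    rw [← h3, ← h4, ← h5]
    exact h7 (by rw [h4]; exact hu)
  · intro X Y hX hY hXY
    obtain ⟨h1, h2⟩ := hC.crit hXY
    obtain ⟨h3, h4⟩ := hX h1
    obtain ⟨h5, h6⟩ := hY h2
    obtain ⟨h7, h8, h9⟩ := hC.cont h3 h5
    refine ⟨h7, fun hu => ?_⟩
    rw [h9] at hu
    obtain ⟨u1, u2⟩ := (Commute.isUnit_mul_iff (Commute.all _ _)).mp hu
    obtain ⟨e, he, h10⟩ := h4 u1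
    obtain ⟨e', he', h11⟩ := h6 u2
    refine ⟨e * e', mul_ne_zero he he', ?_⟩
    rw [h8, h9, hC.rank, h10, h11, smul_mul_smul_comm, pow_add]
    congr 1
    ring

/-- **Ratios of critical values and cubic hypersurfaces.** See the explanations above. -/
theorem result {F : Type} [Field F] [NumberField F] [NumberField.IsTotallyComplex F] [NumberField E]
    {D : CompactData F M} (h : IsMotives D) {C : RatioData M EC} (hC : IsRatio C) (c : EC)
    (point : ∀ i, Facts D (Ratio E C c) (D.H i (aff F F))) :
    ((∀ Y : Sch F, SmoothProj Y → ∀ i, Facts D (Ratio E C c) (D.H i Y)) ↔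
      ∀ (a b d : ℕ) (T : Fin a → Fin b → Fin d → F), ∀ i,
        Facts D (Ratio E C c) (D.H i (hypS T))) ∧
    ∀ n : ℕ, Proj D (Ratio E C c) n ↔ Forms D (Ratio E C c) (n + 2) :=
  ⟨proj_all_iff h.compact h.generated (ratio_serre h hC c) point,
    fun n => proj_iff h.compact h.generated (ratio_serre h hC c) point n⟩

end Pool.Agent.Results.MP_c63a07_nt.CubicFactors
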