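import Pool.Agent.Q49.WU.Facts

/-!
# Ratios of successive critical values, one degree at a time, and cubic hypersurfaces

Let `F` be a totally imaginary number field, `k` a subfield of `F` (for instance `k = F` or `k = ℚ`), and
`E` a number field. Let `M` be the category of motives over `F` with coefficients in `E` (for absolute Hodge
cycles, or for motivated cycles), a semisimple abelian category with Tate twists `N ↦ N(a)`. Let `w ≥ 0` be
a fixed degree. For a separated scheme `X` of finite type over `k` let `D.H m n X` be the motive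
`Gr^W_{w+2m} H^n_c(X_F)`, with coefficients extended to `E`. For smooth projective `Y` the motive
`D.H 0 n Y` is `h^w(Y_F)` if `n = w`, and zero for all other `n`. The `L`-functions are those of
`Res_{F/ℚ} N`, with values in `E ⊗ ℂ`.

For a motive `N` let `C.crit N` be the statement that `N` is pure, that `Res_{F/ℚ} N` has no middle Hodge
type, and that `0` and `1` are both critical; `C.cont N` that `L(s, N)` has a meromorphic continuation to
`ℂ` which is holomorphic at `0` and `1`; `C.L₀ N` and `C.L₁ N` are the values of the continuation at `0`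
and `1`, and `C.rk N` is the rank of `N` over `E`. Let `c = 1 ⊗ 𝔦^{d_F/2} Δ_F`, an invertible element of
`E ⊗ ℂ`. `Ratio E C c N` says: if `N` is critical at `0` and `1` in the sense above, then `L(s, N)` has the
continuation, and if `L(1, N)` is invertible, then `L(0, N) / L(1, N) = c^{rk N}` in `(E ⊗ ℂ)/Eˣ`.

For the Tate twist `N(m)` this is the statement of question Q1 for `N` and `m`, together with its
assumption on the continuation. The properties `IsRatio` are standard: everything only depends on the
isomorphism class, and a direct sum is critical (has a continuation) only if (if) both summands are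
critical (have continuations); values are multiplicative, and ranks additive.

`TwFacts D (Ratio E C c) N` says that all direct factors of all Tate twists of `N` have the property. Every
simple motive over `F` with coefficients in `E` is a direct factor of a Tate twist of one `h^w(Y_F)`, `Y`
smooth projective over `k`.

**Theorem.** Let `w ≥ 0`. (1) Question Q1 together with the continuation is true for all direct factors of
all Tate twists of the motives `h^w(Y_F)` (this one `w`), `Y` smooth projective over `k`, if and only if it
is true for all direct factors of all Tate twists of the motives `Gr^W_{w+2(a-1)} H^n_c` of the smooth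
affine cubic hypersurfaces `T(x, y, z) = 1` of all trilinear forms `T` over `k` in `a` variables `x_p` and
any numbers of variables `y_q`, `z_r`.

(2) For `k = ℚ` it is enough to consider the hypersurfaces `∑_{(p, q, r) ∈ H} x_p y_q z_r = 1` of all
finite sets `H` of triples.
-/

set_option autoImplicit false

open CategoryTheory CategoryTheory.Limits AlgebraicGeometry Pool.Agent.Y116.UV Pool.Agent.Z125.UN
  Pool.Agent.Q193.LT Pool.Agent.Q49.WU

universe v u

namespace Pool.Agent.Results.MP_c63a07_nt.DegreeByDegree

variable {M : Type u} [Category.{v} M] [Abelian M] {E : Type} [Field E] {EC : Type} [CommRing EC]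
  [Algebra E EC]

/-- Criticality at `0` and `1`, continuation, the values at `0` and `1`, and the rank. -/
structure RatioData (M : Type u) (EC : Type) where
  /-- `N` is pure without middle Hodge type, and critical at `0` and `1` -/
  crit : M → Prop
  /-- the `L`-function has a continuation which is holomorphic at `0` and `1` -/
  cont : M → Prop
  /-- `L(0, N)` -/
  L₀ : M → EC
  /-- `L(1, N)` -/
  L₁ : M → EC
  /-- the rank of `N` -/
  rk : M → ℕ

/-- The standard properties. -/
structure IsRatio (C : RatioData M EC) : Prop where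
  iso : ∀ {N N' : M}, (N ≅ N') → (C.crit N ↔ C.crit N') ∧ (C.cont N ↔ C.cont N') ∧
    C.L₀ N = C.L₀ N' ∧ C.L₁ N = C.L₁ N' ∧ C.rk N = C.rk N'
  zero : ∀ {N : M}, IsZero N → C.cont N ∧ C.L₀ N = 1 ∧ C.L₁ N = 1 ∧ C.rk N = 0
  crit : ∀ {N N' : M}, C.crit (N ⊞ N') → C.crit N ∧ C.crit N'
  cont : ∀ {N N' : M}, C.cont N → C.cont N' → C.cont (N ⊞ N') ∧
    C.L₀ (N ⊞ N') = C.L₀ N * C.L₀ N' ∧ C.L₁ (N ⊞ N') = C.L₁ N * C.L₁ N'
  rank : ∀ {N N' : M}, C.rk (N ⊞ N') = C.rk N + C.rk N'

/-- If `N` is critical at `0` and `1`, its `L`-function has a continuation, and if `L(1, N)` is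
invertible, then `L(0, N) / L(1, N)` is `c ^ rk N` up to an element of `Eˣ`. -/
def Ratio (E : Type) [Field E] {EC : Type} [CommRing EC] [Algebra E EC] (C : RatioData M EC)
    (c : EC) (N : M) : Prop :=
  C.crit N → C.cont N ∧ (IsUnit (C.L₁ N) → ∃ e : E, e ≠ 0 ∧ C.L₀ N = e • (c ^ C.rk N * C.L₁ N))

lemma ratio_serre {k : Type} [Field k] {D : WeightData k M} (h : IsWMotives D)
    {C : RatioData M EC} (hC : IsRatio C) (c : EC) : TwSerre D (TwFacts D (Ratio E C c)) := by
  refine twFacts_serre h.weight h.semisimple ?_ ?_ ?_
  · intro X hX _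
    obtain ⟨h1, h2, h3, h4⟩ := hC.zero hX
    refine ⟨h1, fun _ => ⟨1, one_ne_zero, ?_⟩⟩
    rw [h2, h3, h4, pow_zero, mul_one, one_smul]
  · intro X Y e hX hY
    obtain ⟨h1, h2, h3, h4, h5⟩ := hC.iso e
    obtain ⟨h6, h7⟩ := hX (h1.mpr hY)
    refine ⟨h2.mp h6, fun hu => ?_⟩
    rw [← h3, ← h4, ← h5]
    exact h7 (by rw [h4]; exact hu)
  · intro X Y hX hY hXY
    obtain ⟨h1, h2⟩ := hC.crit hXY
    obtain ⟨h3, h4⟩ := hX h1
    obtain ⟨h5, h6⟩ := hY h2
    obtain ⟨h7, h8, h9⟩ := hC.cont h3 h5
    refine ⟨h7, fun hu => ?_⟩
    rw [h9] at hu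
    obtain ⟨u1, u2⟩ := (Commute.isUnit_mul_iff (Commute.all _ _)).mp hu
    obtain ⟨e, he, h10⟩ := h4 u1
    obtain ⟨e', he', h11⟩ := h6 u2
    refine ⟨e * e', mul_ne_zero he he', ?_⟩
    rw [h8, h9, hC.rank, h10, h11, smul_mul_smul_comm, pow_add]
    congr 1
    ring

/-- **Ratios of critical values, one degree at a time, and cubic hypersurfaces.** See the explanations
above; the hypothesis `point` is the trivial case of the twists of the unit motive, which are not
critical at `0` in the sense above. -/
theorem result {F : Type} [Field F] [NumberField F] [NumberField.IsTotallyComplex F] [NumberField E]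
    {k : Type} [Field k] [Algebra k F] {D : WeightData k M} (h : IsWMotives D)
    {C : RatioData M EC} (hC : IsRatio C) (c : EC)
    (point : ∀ m n, TwFacts D (Ratio E C c) (D.H m n (aff k k))) :
    ((∀ Y : Sch k, SmoothProj Y → ∀ n, TwFacts D (Ratio E C c) (D.H 0 n Y)) ↔
      ∀ (a b d : ℕ) (T : Fin a → Fin b → Fin d → k), ∀ n,
        TwFacts D (Ratio E C c) (D.H (a - 1) n (hypS T))) ∧
    (Frac k → ((∀ Y : Sch k, SmoothProj Y → ∀ n, TwFacts D (Ratio E C c) (D.H 0 n Y)) ↔
      ∀ (a b d : ℕ) (H : Finset (Fin a × Fin b × Fin d)), ∀ n,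
        TwFacts D (Ratio E C c) (D.H (a - 1) n (tripS k H)))) := by
  have h1 := sp_weight_iff h.weight h.generated (ratio_serre h hC c) point 0
  have h2 := fun hF : Frac k =>
    sp_weight_graph h.weight h.generated (ratio_serre h hC c) point hF 0
  simp only [zero_add] at h1 h2
  exact ⟨h1, h2⟩

end Pool.Agent.Results.MP_c63a07_nt.DegreeByDegree
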