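import Pool.Agent.Q45.ML.Mot

/-!
# Ratios of successive critical values from the smoothed sums `S_m - S_{m+1}`

`M = Res_{F/ℚ} M₀` of rank `n d`, `d = [F : ℚ]`, with coefficients in `E`: `P p ∈ E[X]` is the Euler polynomial of `M` at `p`,
`α τ p j` its reciprocal roots under the embedding `τ`, `L τ` the COMPLETED `L`-function, `G τ` the archimedean factor. For
`γ > π/2` put

`S_{τ,m}(T) = ∑_p ∑_{k ≥ 1} (∑_j (α τ p j)^k / (k p^{mk})) e^{iγ k log p/T} / Γ(1 + k log p/T)`.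

Then `(G_τ(m)/G_τ(m+1)) exp(S_{τ,m}(T) - S_{τ,m+1}(T)) = L_τ(m)/L_τ(m+1) + O(1/T)`, and
`L(m, M)/L(m+1, M) = ω^n` in `(E ⊗ ℂ)/E^×` (`ω = i^{d/2} Δ_F`) if and only if `Re S_{τ,m}(T)` does not tend to `-∞` for some
`τ` and some multiple `D ≥ 1` of the quotients divided by `ω^n` approaches the lattice `𝓞_E` along one sequence.
-/

set_option autoImplicit false

namespace Pool.Agent.Results.MP_c63a07_nt.RatioLattice

open Filter Topology Asymptotics Polynomial Pool.Agent.Q45.ML Pool.Agent.Q45.ML.Mot NumberField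

/-- `(G(m)/G(m+1)) exp(S_m(T) - S_{m+1}(T))` -/
noncomputable def quot {N : ℕ} (α : Nat.Primes → Fin N → ℂ) (G : ℂ → ℂ) (m : ℤ) (γ T : ℝ) : ℂ :=
  G m / G (m + 1 : ℤ) * Complex.exp (S α m γ T - S α (m + 1) γ T)

/-- the lattice `𝓞_E ⊂ ℂ^{Hom(E, ℂ)}` -/
def lattice (E : Type) [Field E] [NumberField E] : Set ((E →+* ℂ) → ℂ) :=
  Set.range fun (a : 𝓞 E) (τ : E →+* ℂ) => τ a

theorem result (E : Type) [Field E] [NumberField E] {n d : ℕ} {w : ℤ}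
    (P : Nat.Primes → E[X]) (α : (E →+* ℂ) → Nat.Primes → Fin (n * d) → ℂ)
    (hP : ∀ τ p, (P p).map τ = ∏ j, (1 - C (α τ p j) * X))
    (hα : ∀ τ p j, ‖α τ p j‖ ≤ (p : ℝ) ^ ((w : ℝ) / 2))
    (G L : (E →+* ℂ) → ℂ → ℂ) (hG : ∀ τ s, MeromorphicAt (G τ) s) (hmer : ∀ τ s, MeromorphicAt (L τ) s)
    (hL : ∀ τ, ∀ s : ℂ, (w : ℝ) / 2 + 1 < s.re →
      HasProd (fun p : Nat.Primes => (eval₂ τ ((p : ℂ) ^ (-s)) (P p))⁻¹) (L τ s / G τ s))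
    (m : ℤ) (hm : ∀ τ, AnalyticAt ℂ (L τ) m ∧ AnalyticAt ℂ (L τ) (m + 1 : ℤ))
    (hcrit : ∀ τ, AnalyticAt ℂ (G τ) m ∧ G τ m ≠ 0 ∧ AnalyticAt ℂ (G τ) (m + 1 : ℤ) ∧ G τ (m + 1 : ℤ) ≠ 0)
    (hne : ∀ τ, L τ (m + 1 : ℤ) ≠ 0) (ω : ℂ) (hω : ω ≠ 0) {γ : ℝ} (hγ : Real.pi / 2 < γ) :
    (∀ τ, ∀ T : ℝ, 0 < T → Summable (fun z => ‖term (α τ) m γ T z‖) ∧
      Summable fun z => ‖term (α τ) (m + 1) γ T z‖) ∧
    (∀ τ, (fun T : ℝ => quot (α τ) (G τ) m γ T - L τ m / L τ (m + 1 : ℤ)) =O[atTop]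
      (fun T : ℝ => 1 / T)) ∧
    (∀ τ, L τ m = 0 ↔ Tendsto (fun T : ℝ => (S (α τ) m γ T).re) atTop atBot) ∧
    ((∃ e : E, e ≠ 0 ∧ ∀ τ : E →+* ℂ, L τ m / L τ (m + 1 : ℤ) = τ e * ω ^ n) ↔
      (∃ τ : E →+* ℂ, ¬ Tendsto (fun T : ℝ => (S (α τ) m γ T).re) atTop atBot) ∧
      ∃ D : ℕ, 0 < D ∧ ∃ t : ℕ → ℝ, Tendsto t atTop atTop ∧ Tendsto
        (fun i => Metric.infDist (fun τ => (D : ℂ) * (quot (α τ) (G τ) m γ (t i) / ω ^ n)) (lattice E))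
          atTop (𝓝 0)) := by
  have hA : ∀ τ, ∀ s₀ : ℤ, AnalyticAt ℂ (L τ) s₀ → AnalyticAt ℂ (G τ) s₀ → G τ s₀ ≠ 0 →
      (fun T : ℝ => Complex.exp (S (α τ) s₀ γ T) - L τ s₀ / G τ s₀) =O[atTop] (fun T : ℝ => 1 / T) := by
    intro τ s₀ h1 h2 h3
    exact value (L := fun s => L τ s / G τ s) (hP τ) (hα τ) s₀ (fun σ _ => (hmer τ _).div (hG τ _)) (hL τ)
      (h1.div h2 h3) hγ
  have hq : ∀ τ, (fun T : ℝ => quot (α τ) (G τ) m γ T - L τ m / L τ (m + 1 : ℤ)) =O[atTop]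
      (fun T : ℝ => 1 / T) := by
    intro τ
    obtain ⟨c1, c2, c3, c4⟩ := hcrit τ
    have h1 := hA τ m (hm τ).1 c1 c2
    have h2 := hA τ (m + 1) (hm τ).2 c3 c4
    have h3 := (quot_rate h1 h2 (div_ne_zero (hne τ) c4)).const_mul_left (G τ m / G τ (m + 1 : ℤ))
    refine h3.congr_left fun T => ?_
    have h4 := hne τ
    have e1 : L τ m / G τ m / (L τ (m + 1 : ℤ) / G τ (m + 1 : ℤ)) =
        L τ m / L τ (m + 1 : ℤ) * (G τ (m + 1 : ℤ) / G τ m) := by field_simp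
    have e2 : G τ m / G τ (m + 1 : ℤ) * (L τ m / L τ (m + 1 : ℤ) * (G τ (m + 1 : ℤ) / G τ m)) =
        L τ m / L τ (m + 1 : ℤ) := by field_simp
    unfold quot
    rw [Complex.exp_sub, mul_sub, e1, e2]
  have hv : ∀ τ, L τ m = 0 ↔ Tendsto (fun T : ℝ => (S (α τ) m γ T).re) atTop atBot := by
    intro τ
    obtain ⟨c1, c2, -, -⟩ := hcrit τ
    have h1 := (tendsto_of_rate (hA τ m (hm τ).1 c1 c2)).norm
    simp only [Complex.norm_exp] at h1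
    constructor
    · intro h
      rw [h, zero_div, norm_zero] at h1
      exact Real.tendsto_exp_comp_nhds_zero.1 h1
    · intro h
      have h2 := tendsto_nhds_unique h1 (Real.tendsto_exp_comp_nhds_zero.2 h)
      have h3 := norm_eq_zero.1 h2
      rcases div_eq_zero_iff.1 h3 with h4 | h4
      · exact h4
      · exact absurd h4 c2
  refine ⟨fun τ T hT => ⟨summable (hα τ) m γ hT, summable (hα τ) (m + 1) γ hT⟩, hq, hv, ?_⟩
  have hωn : ω ^ n ≠ 0 := pow_ne_zero _ hω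
  have hrel := relation_iff E (f := fun τ T => quot (α τ) (G τ) m γ T) (Ω := fun _ => ω ^ n)
    (fun _ => hωn) fun τ => tendsto_of_rate (hq τ)
  constructor
  · rintro ⟨e, he, h⟩
    refine ⟨?_, hrel.1 ⟨e, h⟩⟩
    obtain ⟨τ⟩ : Nonempty (E →+* ℂ) := inferInstance
    refine ⟨τ, fun hτ => ?_⟩
    have h1 := h τ
    rw [(hv τ).2 hτ, zero_div] at h1
    have h2 : τ e ≠ 0 := (map_ne_zero τ).2 he
    exact mul_ne_zero h2 hωn h1.symm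
  · rintro ⟨⟨τ, hτ⟩, h⟩
    obtain ⟨e, he⟩ := hrel.2 h
    refine ⟨e, ?_, he⟩
    rintro rfl
    have h1 := he τ
    rw [map_zero, zero_mul] at h1
    rcases div_eq_zero_iff.1 h1 with h2 | h2
    · exact hτ ((hv τ).1 h2)
    · exact hne τ h2

end Pool.Agent.Results.MP_c63a07_nt.RatioLattice
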